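import Pool.Agent.Lib.MP_2eed13_lc.LCA.Api

/-!
# LSMAIN: the diagonal function is a linear-space function
-/

set_option autoImplicit false

namespace Pool.Agent.Lib.MP_2eed13_lc.LCA.H62

open Finset

theorem mk_le (C p N : ℕ) (f : ℕ → ℕ) (h : ∀ i, f i ≤ p) : mk C p N f ≤ N * (p * C) := by
  unfold mk
  calc ∑ i ∈ range N, f i * powc p i C ≤ ∑ _i ∈ range N, p * C :=
        Finset.sum_le_sum fun i _ => Nat.mul_le_mul (h i) (Nat.min_le_right _ _)
    _ = N * (p * C) := by simp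

theorem dig_le {p : ℕ} (hp : 1 ≤ p) (x i : ℕ) : dig p x i ≤ p :=
  (Nat.mod_lt _ hp).le

theorem scaleN_le (C p b r a R : ℕ) (hp : 1 ≤ p) : scaleN C p b r a R ≤ 4 * b * (p * C) := by
  unfold scaleN
  refine mk_le _ _ _ _ fun i => ?_
  split_ifs
  · exact dig_le hp _ _
  · exact (Nat.mod_lt _ hp).le

theorem addN_le (C p b r s : ℕ) (c : ℕ → ℕ) (R : ℕ) (hp : 1 ≤ p) :
    addN C p b r s c R ≤ 4 * b * (p * C) := by
  unfold addN
  refine mk_le _ _ _ _ fun i => ?_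
  split_ifs
  · exact (Nat.mod_lt _ hp).le
  · exact (Nat.mod_lt _ hp).le
  · exact dig_le hp _ _

theorem opN_le (C q T s0 B J n p b tag r s i a R : ℕ) (hp : 1 ≤ p)
    (hR : R ≤ 4 * b * (p * C)) : opN C q T s0 B J n p b tag r s i a R ≤ 4 * b * (p * C) := by
  unfold opN
  split_ifs
  · exact addN_le _ _ _ _ _ _ _ hp
  · exact hR
  · exact scaleN_le _ _ _ _ _ _ hp
  · exact addN_le _ _ _ _ _ _ _ hp
  · exact scaleN_le _ _ _ _ _ _ hp

theorem run_le (C q T s0 B J n p b : ℕ) (hp : 1 ≤ p) (N : ℕ) :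
    runTo (actN C q T s0 B J n p b) N 0 ≤ 4 * b * (p * C) := by
  induction N with
  | zero => exact Nat.zero_le _
  | succ N ih => exact opN_le _ _ _ _ _ _ _ _ _ _ _ _ _ _ _ hp ih

theorem primeFor_ge (m : ℕ) : m ≤ primeFor m := Nat.le_add_right _ _

theorem lsmain (h1 : LSNumStatement) (h2 : LSOpStatement) (h3 : LSDescStatement) :
    LSDiagStatement := by
  obtain ⟨hprime, hwidth, hlog, hnum⟩ := h1
  have hx : LSf fun x : ℕ => x := LSf.id
  have hn : LSf fun x : ℕ => Nat.log 2 x := hlog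
  have he : LSf fun x : ℕ => (Nat.log 2 x).unpair.1 := hn.unpair1
  have hβ : LSf fun x : ℕ => (Nat.log 2 x).unpair.1.unpair.1 + 1 := he.unpair1.succ
  have hT : LSf fun x : ℕ => (Nat.log 2 x).unpair.1.unpair.2.unpair.1 := he.unpair2.unpair1
  have hs : LSf fun x : ℕ => (Nat.log 2 x).unpair.1.unpair.2.unpair.2 := he.unpair2.unpair2
  have hW : LSf fun x : ℕ => width (Nat.log 2 x) := hwidth.comp hn
  have hb : LSf fun x : ℕ => width (Nat.log 2 x) * ((Nat.log 2 x).unpair.1.unpair.1 + 1) :=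
    hW.mul hβ
  have hP : LSf fun x : ℕ => primeFor
      (3 * (width (Nat.log 2 x) * ((Nat.log 2 x).unpair.1.unpair.1 + 1)) + 2) :=
    hprime.comp (((LSf.const 3).mul hb).succ.succ)
  have hq : LSf fun x : ℕ => powc 2 ((Nat.log 2 x).unpair.1.unpair.1 + 1) x :=
    LSf.powc (LSf.const 2) hβ hx
  have hM : LSf fun x : ℕ => 9 * (primeFor
      (3 * (width (Nat.log 2 x) * ((Nat.log 2 x).unpair.1.unpair.1 + 1)) + 2) - 1) :=
    (LSf.const 9).mul hP.pred
  have hN : LSf fun x : ℕ => powc (9 * (primeFor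
      (3 * (width (Nat.log 2 x) * ((Nat.log 2 x).unpair.1.unpair.1 + 1)) + 2) - 1))
      (width (Nat.log 2 x)) x := LSf.powc hM hW hx
  have hp1 : ∀ x : ℕ, 1 ≤ primeFor
      (3 * (width (Nat.log 2 x) * ((Nat.log 2 x).unpair.1.unpair.1 + 1)) + 2) := fun x =>
    le_trans (by omega) (primeFor_ge _)
  have hmain : LSf fun x : ℕ => mainN x (powc 2 ((Nat.log 2 x).unpair.1.unpair.1 + 1) x)
      (Nat.log 2 x).unpair.1.unpair.2.unpair.1 (Nat.log 2 x).unpair.1.unpair.2.unpair.2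
      (width (Nat.log 2 x)) (width (Nat.log 2 x)) (Nat.log 2 x)
      (primeFor (3 * (width (Nat.log 2 x) * ((Nat.log 2 x).unpair.1.unpair.1 + 1)) + 2))
      (width (Nat.log 2 x) * ((Nat.log 2 x).unpair.1.unpair.1 + 1)) := by
    unfold mainN
    have p1 : LSf fun p : ℕ × ℕ × ℕ => p.1 := LSf.fst LSf.id
    have p2 : LSf fun p : ℕ × ℕ × ℕ => p.2.1 := LSf.fst (LSf.snd LSf.id)
    have p3 : LSf fun p : ℕ × ℕ × ℕ => p.2.2 := LSf.snd (LSf.snd LSf.id)
    have hD : LSf fun p : ℕ × ℕ × ℕ => desc (9 * (primeFor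
      (3 * (width (Nat.log 2 p.1) * ((Nat.log 2 p.1).unpair.1.unpair.1 + 1)) + 2) - 1))
      (width (Nat.log 2 p.1)) p.2.1 := h3 _ _ _ _ (hM.comp p1) (hW.comp p1) p2
    refine LSf.runTo (f := fun _ : ℕ => (0 : ℕ)) (g := fun x => actN x
      (powc 2 ((Nat.log 2 x).unpair.1.unpair.1 + 1) x)
      (Nat.log 2 x).unpair.1.unpair.2.unpair.1 (Nat.log 2 x).unpair.1.unpair.2.unpair.2
      (width (Nat.log 2 x)) (width (Nat.log 2 x)) (Nat.log 2 x)
      (primeFor (3 * (width (Nat.log 2 x) * ((Nat.log 2 x).unpair.1.unpair.1 + 1)) + 2))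
      (width (Nat.log 2 x) * ((Nat.log 2 x).unpair.1.unpair.1 + 1)))
      (B := fun x => 4 * (width (Nat.log 2 x) * ((Nat.log 2 x).unpair.1.unpair.1 + 1)) *
        (primeFor (3 * (width (Nat.log 2 x) * ((Nat.log 2 x).unpair.1.unpair.1 + 1)) + 2) * x))
      (LSf.const 0) ?_ hN (((LSf.const 4).mul hb).mul (hP.mul hx)) ?_
    · exact h2 _ _ _ _ _ _ _ _ _ _ _ _ _ _ _ _ p1 (hq.comp p1) (hT.comp p1) (hs.comp p1)
        (hW.comp p1) (hW.comp p1) (hn.comp p1) (hP.comp p1) (hb.comp p1) hD.fst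
        hD.snd.fst hD.snd.snd.fst hD.snd.snd.snd.fst hD.snd.snd.snd.snd p3 (fun p => hp1 p.1)
    · intro x N _
      exact run_le _ _ _ _ _ _ _ _ _ (hp1 x) N
  have hout : LSf fun x : ℕ => outE x (Nat.log 2 x) (Nat.log 2 x).unpair.1 :=
    LSf.dig hP hmain hβ
  have hdiag : LSf diag := LSf.ite (P := fun x => outE x (Nat.log 2 x) (Nat.log 2 x).unpair.1 = 1)
    (LSp.eq hout (LSf.const 1)) (LSf.const 0) (LSf.const 1)
  exact hdiag

end Pool.Agent.Lib.MP_2eed13_lc.LCA.H62
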