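import Pool.Agent.Lib.MP_2eed13_lc.LCA.Api
import Pool.Agent.Lib.MP_2eed13_lc.LCA.H62.LsMain

/-!
# The diagonal function with block sizes adapted to the array

Blocks of width `wid n β` and `hgt n` levels; the product of both is of the order `(n / log n) ^ 2`.
-/

set_option autoImplicit false

namespace Pool.Agent.Lib.MP_2eed13_lc.LCA.H62

open Finset

/-- The width of the blocks for arrays with `β`-bit codes. -/
def wid (n β : ℕ) : ℕ := n / (5 * β * (Nat.log 2 n + 1))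

/-- The number of levels. -/
def hgt (n : ℕ) : ℕ := n / (5 * (Nat.log 2 n + 1))

/-- The prime used for `β`-bit codes. -/
def prm (n β : ℕ) : ℕ := primeFor (3 * (wid n β * β) + 2)

/-- The outcome of the evaluation for the array with code `e = (β - 1, T, s0)`. -/
def outA (C n e : ℕ) : ℕ :=
  dig (prm n (e.unpair.1 + 1))
    (mainN C (powc 2 (e.unpair.1 + 1) C) e.unpair.2.unpair.1 e.unpair.2.unpair.2
      (wid n (e.unpair.1 + 1)) (hgt n) n (prm n (e.unpair.1 + 1))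
      (wid n (e.unpair.1 + 1) * (e.unpair.1 + 1)))
    (e.unpair.1 + 1)

/-- The diagonal function. -/
def diagA (x : ℕ) : ℕ := if outA x (Nat.log 2 x) (Nat.log 2 x).unpair.1 = 1 then 0 else 1

/-! ### size -/

theorem sizeA (β : ℕ) (hβ : 1 ≤ β) : ∃ N, ∀ n, N ≤ n → 1 ≤ n ∧ β ≤ n ∧ 2 ≤ wid n β ∧
    2 ^ (3 * (wid n β * β)) ≤ 2 ^ n ∧
    ∀ p, 1 ≤ p → p ≤ 2 * (3 * (wid n β * β) + 2) →
      p ^ (4 * (wid n β * β)) ≤ 2 ^ n ∧ (9 * (p - 1)) ^ hgt n ≤ 2 ^ n := by
  refine ⟨2 ^ (10 * β), fun n hn => ?_⟩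
  have hn0 : n ≠ 0 := by
    have : 1 ≤ 2 ^ (10 * β) := Nat.one_le_two_pow
    omega
  obtain ⟨L, hL⟩ : ∃ L, L = Nat.log 2 n + 1 := ⟨_, rfl⟩
  have hLβ : 10 * β + 1 ≤ L := by
    have := Nat.le_log_of_pow_le (b := 2) (by norm_num) hn
    omega
  have hlow : 2 ^ (L - 1) ≤ n := by
    have := Nat.pow_log_le_self 2 hn0
    rw [hL, Nat.add_sub_cancel]
    exact this
  have hup : n < 2 ^ L := by
    rw [hL]
    exact Nat.lt_pow_succ_log_self (by norm_num) n
  have hw : wid n β = n / (5 * β * L) := by rw [wid, hL]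
  have hh : hgt n = n / (5 * L) := by rw [hgt, hL]
  have hw2 : wid n β * (5 * β * L) ≤ n := by rw [hw]; exact Nat.div_mul_le_self _ _
  have hh2 : hgt n * (5 * L) ≤ n := by rw [hh]; exact Nat.div_mul_le_self _ _
  -- `L ^ 2 ≤ 2 ^ (L - 1)`
  have hsq : ∀ m, 7 ≤ m → (m + 1) ^ 2 ≤ 2 ^ m := by
    intro m hm
    induction m, hm using Nat.le_induction with
    | base => norm_num
    | succ k hk ih =>
      have h2 : 2 ^ (k + 1) = 2 * 2 ^ k := by ring
      rw [h2]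
      nlinarith
  have hLn : L ^ 2 ≤ n := by
    have h1 := hsq (L - 1) (by omega)
    rw [show L - 1 + 1 = L by omega] at h1
    exact h1.trans hlow
  have h2w : 2 ≤ wid n β := by
    rw [hw, Nat.le_div_iff_mul_le (Nat.mul_pos (by omega) (by omega))]
    calc 2 * (5 * β * L) = 10 * β * L := by ring
      _ ≤ L * L := Nat.mul_le_mul_right _ (by omega)
      _ = L ^ 2 := by ring
      _ ≤ n := hLn
  have hL11 : 11 ≤ L := by omega
  have hβn : β ≤ n := by nlinarith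
  have hwβ : 5 * (wid n β * β) * L ≤ n := by
    calc 5 * (wid n β * β) * L = wid n β * (5 * β * L) := by ring
      _ ≤ n := hw2
  have hwβ3 : 3 * (wid n β * β) ≤ n := by nlinarith
  refine ⟨by omega, hβn, h2w, Nat.pow_le_pow_right (by norm_num) hwβ3, ?_⟩
  intro p hp1 hp2
  have hp3 : p ≤ 2 ^ L := by
    have h1 : 11 * (5 * (wid n β * β)) ≤ n := by nlinarith
    have h2 : p ≤ n := by
      have : 121 ≤ n := by nlinarith
      omega
    omega
  constructor
  · calc p ^ (4 * (wid n β * β)) ≤ (2 ^ L) ^ (4 * (wid n β * β)) := Nat.pow_le_pow_left hp3 _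
      _ = 2 ^ (4 * (wid n β * β) * L) := by
          rw [← pow_mul]
          congr 1
          ring
      _ ≤ 2 ^ n := by
          apply Nat.pow_le_pow_right (by norm_num)
          nlinarith
  · calc (9 * (p - 1)) ^ hgt n ≤ (2 ^ (L + 4)) ^ hgt n := by
          apply Nat.pow_le_pow_left
          have : 2 ^ (L + 4) = 16 * 2 ^ L := by ring
          omega
      _ = 2 ^ (hgt n * (L + 4)) := by
          rw [← pow_mul]
          congr 1
          ring
      _ ≤ 2 ^ n := by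
          apply Nat.pow_le_pow_right (by norm_num)
          refine le_trans (Nat.mul_le_mul_left _ ?_) hh2
          omega

/-! ### the diagonal argument -/

theorem diagA_spec (h1 : BlockStatement) (h2 : EvalStatement) (h3 : PrimeStatement) (Q : Type)
    (hQ : Finite Q) (s : Q) (δ : Option Q → Q → Option Q → Q) (F : Set Q) :
    ∃ β, 1 ≤ β ∧ ∀ N, ∃ n, N ≤ n ∧
      ¬ (diagA (2 ^ n) ≠ 0 ↔ ∃ t, t ≤ hgt n * wid n β ∧ aAcc δ s F n t) := by
  obtain ⟨β, T, s0, hβ, hs0, hblk⟩ := h1 Q hQ s δ F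
  refine ⟨β, hβ, fun N => ?_⟩
  obtain ⟨N0, hN0⟩ := sizeA β hβ
  set e : ℕ := Nat.pair (β - 1) (Nat.pair T s0) with he
  set n : ℕ := Nat.pair e (max N N0) with hn
  have hkn : max N N0 ≤ n := Nat.right_le_pair _ _
  have hNn : N ≤ n := le_trans (le_max_left _ _) hkn
  obtain ⟨hn1, hβn, hB2, hC, hpp⟩ := hN0 n (le_trans (le_max_right _ _) hkn)
  refine ⟨n, hNn, ?_⟩
  have hne : n.unpair.1 = e := by rw [hn, Nat.unpair_pair]
  have he1 : e.unpair.1 = β - 1 := by rw [he, Nat.unpair_pair]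
  have he2 : e.unpair.2.unpair.1 = T := by rw [he, Nat.unpair_pair, Nat.unpair_pair]
  have he3 : e.unpair.2.unpair.2 = s0 := by rw [he, Nat.unpair_pair, Nat.unpair_pair]
  have hβ1 : β - 1 + 1 = β := by omega
  obtain ⟨hp1, hp2, hp3⟩ := h3 (3 * (wid n β * β) + 2) (by omega)
  obtain ⟨hq1, hq2⟩ := hpp (primeFor (3 * (wid n β * β) + 2)) (by omega) hp3
  have hpw : powc 2 β (2 ^ n) = 2 ^ β := by
    unfold powc
    exact min_eq_left (Nat.pow_le_pow_right (by norm_num) hβn)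
  have hev := h2 (2 ^ n) β T s0 (wid n β) (hgt n) n (primeFor (3 * (wid n β * β) + 2))
    hβ hB2 hs0 hp1 (by omega) hC hq1 hq2
  have hout : outA (2 ^ n) n e = dig 2 (tval (wid n β * β) (blockMap (2 ^ n) (2 ^ β) T (wid n β))
      (cont (2 ^ n) (2 ^ β) s0 (wid n β) (hgt n) n) (hgt n) (hgt n)) β := by
    unfold outA prm
    rw [he1, he2, he3, hβ1, hpw]
    exact hev
  have hb := hblk n (wid n β) (hgt n) (2 ^ n) hn1 hB2 hC
  rw [← hout] at hb
  have hlog : Nat.log 2 (2 ^ n) = n := Nat.log_pow (by norm_num) n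
  have hd : diagA (2 ^ n) = if outA (2 ^ n) n e = 1 then 0 else 1 := by
    unfold diagA
    rw [hlog, hne]
  intro hiff
  rw [← hb, hd] at hiff
  by_cases ho : outA (2 ^ n) n e = 1
  · rw [if_pos ho] at hiff
    exact (hiff.2 ho) rfl
  · rw [if_neg ho] at hiff
    exact ho (hiff.1 one_ne_zero)

/-! ### linear space -/

theorem ls_diagA (h1 : LSNumStatement) (h2 : LSOpStatement) (h3 : LSDescStatement) : LS diagA := by
  obtain ⟨hprime, hwidth, hlog, hnum⟩ := h1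
  have hx : LSf fun x : ℕ => x := LSf.id
  have hn : LSf fun x : ℕ => Nat.log 2 x := hlog
  have he : LSf fun x : ℕ => (Nat.log 2 x).unpair.1 := hn.unpair1
  have hβ : LSf fun x : ℕ => (Nat.log 2 x).unpair.1.unpair.1 + 1 := he.unpair1.succ
  have hT : LSf fun x : ℕ => (Nat.log 2 x).unpair.1.unpair.2.unpair.1 := he.unpair2.unpair1
  have hs : LSf fun x : ℕ => (Nat.log 2 x).unpair.1.unpair.2.unpair.2 := he.unpair2.unpair2
  have hLL : LSf fun x : ℕ => Nat.log 2 (Nat.log 2 x) + 1 := (hlog.comp hn).succ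
  have hW : LSf fun x : ℕ => wid (Nat.log 2 x) ((Nat.log 2 x).unpair.1.unpair.1 + 1) := by
    unfold wid
    exact hn.div (((LSf.const 5).mul hβ).mul hLL)
  have hJ : LSf fun x : ℕ => hgt (Nat.log 2 x) := by
    unfold hgt
    exact hn.div ((LSf.const 5).mul hLL)
  have hb : LSf fun x : ℕ => wid (Nat.log 2 x) ((Nat.log 2 x).unpair.1.unpair.1 + 1) *
      ((Nat.log 2 x).unpair.1.unpair.1 + 1) := hW.mul hβ
  have hP : LSf fun x : ℕ => prm (Nat.log 2 x) ((Nat.log 2 x).unpair.1.unpair.1 + 1) := by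
    unfold prm
    exact hprime.comp (((LSf.const 3).mul hb).succ.succ)
  have hq : LSf fun x : ℕ => powc 2 ((Nat.log 2 x).unpair.1.unpair.1 + 1) x :=
    LSf.powc (LSf.const 2) hβ hx
  have hM : LSf fun x : ℕ => 9 * (prm (Nat.log 2 x) ((Nat.log 2 x).unpair.1.unpair.1 + 1) - 1) :=
    (LSf.const 9).mul hP.pred
  have hN : LSf fun x : ℕ => powc (9 * (prm (Nat.log 2 x)
      ((Nat.log 2 x).unpair.1.unpair.1 + 1) - 1)) (hgt (Nat.log 2 x)) x := LSf.powc hM hJ hx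
  have hp1 : ∀ x : ℕ, 1 ≤ prm (Nat.log 2 x) ((Nat.log 2 x).unpair.1.unpair.1 + 1) := fun x =>
    le_trans (by omega) (primeFor_ge _)
  have hmain : LSf fun x : ℕ => mainN x (powc 2 ((Nat.log 2 x).unpair.1.unpair.1 + 1) x)
      (Nat.log 2 x).unpair.1.unpair.2.unpair.1 (Nat.log 2 x).unpair.1.unpair.2.unpair.2
      (wid (Nat.log 2 x) ((Nat.log 2 x).unpair.1.unpair.1 + 1)) (hgt (Nat.log 2 x)) (Nat.log 2 x)
      (prm (Nat.log 2 x) ((Nat.log 2 x).unpair.1.unpair.1 + 1))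
      (wid (Nat.log 2 x) ((Nat.log 2 x).unpair.1.unpair.1 + 1) *
        ((Nat.log 2 x).unpair.1.unpair.1 + 1)) := by
    unfold mainN
    have p1 : LSf fun p : ℕ × ℕ × ℕ => p.1 := LSf.fst LSf.id
    have p2 : LSf fun p : ℕ × ℕ × ℕ => p.2.1 := LSf.fst (LSf.snd LSf.id)
    have p3 : LSf fun p : ℕ × ℕ × ℕ => p.2.2 := LSf.snd (LSf.snd LSf.id)
    have hD : LSf fun p : ℕ × ℕ × ℕ => desc (9 * (prm (Nat.log 2 p.1)
      ((Nat.log 2 p.1).unpair.1.unpair.1 + 1) - 1)) (hgt (Nat.log 2 p.1)) p.2.1 :=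
      h3 _ _ _ _ (hM.comp p1) (hJ.comp p1) p2
    refine LSf.runTo (f := fun _ : ℕ => (0 : ℕ)) (g := fun x => actN x
      (powc 2 ((Nat.log 2 x).unpair.1.unpair.1 + 1) x)
      (Nat.log 2 x).unpair.1.unpair.2.unpair.1 (Nat.log 2 x).unpair.1.unpair.2.unpair.2
      (wid (Nat.log 2 x) ((Nat.log 2 x).unpair.1.unpair.1 + 1)) (hgt (Nat.log 2 x)) (Nat.log 2 x)
      (prm (Nat.log 2 x) ((Nat.log 2 x).unpair.1.unpair.1 + 1))
      (wid (Nat.log 2 x) ((Nat.log 2 x).unpair.1.unpair.1 + 1) *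
        ((Nat.log 2 x).unpair.1.unpair.1 + 1)))
      (B := fun x => 4 * (wid (Nat.log 2 x) ((Nat.log 2 x).unpair.1.unpair.1 + 1) *
        ((Nat.log 2 x).unpair.1.unpair.1 + 1)) *
        (prm (Nat.log 2 x) ((Nat.log 2 x).unpair.1.unpair.1 + 1) * x))
      (LSf.const 0) ?_ hN (((LSf.const 4).mul hb).mul (hP.mul hx)) ?_
    · exact h2 _ _ _ _ _ _ _ _ _ _ _ _ _ _ _ _ p1 (hq.comp p1) (hT.comp p1) (hs.comp p1)
        (hW.comp p1) (hJ.comp p1) (hn.comp p1) (hP.comp p1) (hb.comp p1) hD.fst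
        hD.snd.fst hD.snd.snd.fst hD.snd.snd.snd.fst hD.snd.snd.snd.snd p3 (fun p => hp1 p.1)
    · intro x N _
      exact run_le _ _ _ _ _ _ _ _ _ (hp1 x) N
  have hout : LSf fun x : ℕ => outA x (Nat.log 2 x) (Nat.log 2 x).unpair.1 :=
    LSf.dig hP hmain hβ
  have hdiag : LSf diagA := LSf.ite
    (P := fun x => outA x (Nat.log 2 x) (Nat.log 2 x).unpair.1 = 1)
    (LSp.eq hout (LSf.const 1)) (LSf.const 0) (LSf.const 1)
  exact hdiag

end Pool.Agent.Lib.MP_2eed13_lc.LCA.H62
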