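import Pool.Agent.Lib.MP_2eed13_lc.LCA.Api

/-!
# LSBLK: the block map and the initial contents are linear-space functions
-/

set_option autoImplicit false

namespace Pool.Agent.Lib.MP_2eed13_lc.LCA.H62

open Finset

theorem dig_le_self (b x i : ℕ) : dig b x i ≤ x :=
  (Nat.mod_le _ _).trans (Nat.div_le_self _ _)

theorem rowStep_le (C q T w x : ℕ) : rowStep C q T w x ≤ w * (T * C) := by
  unfold rowStep
  calc _ ≤ ∑ _i ∈ range w, T * C :=
        Finset.sum_le_sum fun i _ => Nat.mul_le_mul (dig_le_self _ _ _) (Nat.min_le_right _ _)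
    _ = w * (T * C) := by simp

theorem ls_rule {α : Type} [Denumerable α] {q T l c r : α → ℕ} (hq : LSf q) (hT : LSf T)
    (hl : LSf l) (hc : LSf c) (hr : LSf r) :
    LSf fun x => rule (q x) (T x) (l x) (c x) (r x) := by
  unfold rule
  exact LSf.dig hq hT ((((hl.mul hq).add hc).mul hq).add hr)

theorem ls_rowStep {α : Type} [Denumerable α] {C q T w x : α → ℕ} (hC : LSf C) (hq : LSf q)
    (hT : LSf T) (hw : LSf w) (hx : LSf x) :
    LSf fun a => rowStep (C a) (q a) (T a) (w a) (x a) := by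
  unfold rowStep
  have p1 : LSf fun x : α × ℕ => x.1 := LSf.fst LSf.id
  have p2 : LSf fun x : α × ℕ => x.2 := LSf.snd LSf.id
  refine LSf.sum hw ?_
  refine (ls_rule (hq.comp p1) (hT.comp p1) ?_ (LSf.dig (hq.comp p1) (hx.comp p1) p2)
    (LSf.dig (hq.comp p1) (hx.comp p1) p2.succ)).mul (LSf.powc (hq.comp p1) p2 (hC.comp p1))
  exact LSf.ite (P := fun x : α × ℕ => x.2 = 0) (LSp.eq p2 (LSf.const 0)) (LSf.const 0)
    (LSf.dig (hq.comp p1) (hx.comp p1) p2.pred)

theorem lsblk : LSBlkStatement := by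
  intro α _
  refine ⟨?_, ?_⟩
  · intro C q T B x hC hq hT hB hx
    unfold blockMap
    have h3B : LSf fun a => 3 * B a := (LSf.const 3).mul hB
    have hit : LSf fun a => (rowStep (C a) (q a) (T a) (3 * B a))^[B a] (x a) := by
      have p1 : LSf fun x : α × ℕ => x.1 := LSf.fst LSf.id
      have p2 : LSf fun x : α × ℕ => x.2 := LSf.snd LSf.id
      refine LSf.iterate (f := x) (g := fun a => rowStep (C a) (q a) (T a) (3 * B a))
        (B := fun a => x a + 3 * B a * (T a * C a)) hx
        (ls_rowStep (hC.comp p1) (hq.comp p1) (hT.comp p1) (h3B.comp p1) p2) hB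
        (hx.add (h3B.mul (hT.mul hC))) ?_
      intro a n _
      show (rowStep (C a) (q a) (T a) (3 * B a))^[n] (x a) ≤ _
      cases n with
      | zero => exact Nat.le_add_right _ _
      | succ n =>
        rw [Function.iterate_succ_apply']
        exact (rowStep_le _ _ _ _ _).trans (Nat.le_add_left _ _)
    have hpw : LSf fun a => powc (q a) (B a) (C a) := LSf.powc hq hB hC
    exact (hit.div hpw).mod hpw
  · intro C q s B J n i hC hq hs hB hJ hn hi
    unfold cont
    have p1 : LSf fun x : α × ℕ => x.1 := LSf.fst LSf.id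
    have p2 : LSf fun x : α × ℕ => x.2 := LSf.snd LSf.id
    refine LSf.sum hB ?_
    have hiB : LSf fun x : α × ℕ => i x.1 * B x.1 + x.2 :=
      ((hi.comp p1).mul (hB.comp p1)).add p2
    have hJB : LSf fun x : α × ℕ => J x.1 * B x.1 := (hJ.comp p1).mul (hB.comp p1)
    refine LSf.mul ?_ (LSf.powc (hq.comp p1) p2 (hC.comp p1))
    exact LSf.ite (P := fun x : α × ℕ => J x.1 * B x.1 + 1 ≤ i x.1 * B x.1 + x.2 ∧
      i x.1 * B x.1 + x.2 ≤ n x.1 + J x.1 * B x.1)
      ((LSp.le hJB.succ hiB).and (LSp.le hiB ((hn.comp p1).add hJB))) (hs.comp p1) (LSf.const 0)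

end Pool.Agent.Lib.MP_2eed13_lc.LCA.H62
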