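import Pool.Agent.Lib.MP_2eed13_lc.LCA.Api

/-!
# LSDESC: the descent is a linear-space function
-/

set_option autoImplicit false

namespace Pool.Agent.Lib.MP_2eed13_lc.LCA.H62

open Finset

/-- The invariant of the descent. -/
def DInv (J t n : ℕ) (x : ℕ × ℕ × ℕ × ℕ × ℕ) : Prop :=
  x.1 ≤ 4 ∧ x.2.1 ≤ 3 ∧ x.2.2.1 ≤ 1 ∧ x.2.2.2.1 ≤ J + n ∧ x.2.2.2.2 ≤ t + 1

theorem regOf_le (r c : ℕ) : regOf r c ≤ 3 := by
  unfold regOf
  omega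

theorem dinv_step {M J t n k : ℕ} {x : ℕ × ℕ × ℕ × ℕ × ℕ} (h : DInv J t n x) :
    DInv J t (n + 1) (descStep M J t k x) := by
  obtain ⟨h1, h2, h3, h4, h5⟩ := h
  have hd : t / M ^ (J - 1 - k) % M ≤ t := (Nat.mod_le _ _).trans (Nat.div_le_self _ _)
  have hr := regOf_le
  unfold descStep
  generalize t / M ^ (J - 1 - k) % M = d at hd ⊢
  generalize t % M ^ (J - 1 - k) = e
  split_ifs
  · exact ⟨h1, h2, h3, by omega, h5⟩
  · exact ⟨by norm_num, h2, h3, by show x.2.2.2.1 ≤ _; omega, by show d / 9 + 1 ≤ _; omega⟩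
  · exact ⟨by norm_num, by norm_num, by norm_num, by norm_num, by norm_num⟩
  · exact ⟨by norm_num, hr _ _, by norm_num,
      by show x.2.2.2.1 + d % 9 - 2 ≤ _; omega, by norm_num⟩
  · exact ⟨by norm_num, h2, h3, by show x.2.2.2.1 ≤ _; omega, by show d / 9 + 1 ≤ _; omega⟩
  · exact ⟨by norm_num, by norm_num, by norm_num, by norm_num, by norm_num⟩
  · exact ⟨by norm_num, hr _ _, by norm_num,
      by show x.2.2.2.1 + d % 9 - 6 ≤ _; omega, by norm_num⟩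
  · exact ⟨by norm_num, h2, h3, by show x.2.2.2.1 ≤ _; omega, by show d / 9 + 1 ≤ _; omega⟩
  · exact ⟨by norm_num, by norm_num, by norm_num, by norm_num, by norm_num⟩

theorem dinv_run (M J t n : ℕ) : DInv J t n (runTo (descStep M J t) n (0, 0, 0, J, 0)) := by
  induction n with
  | zero => exact ⟨by norm_num [runTo], by norm_num [runTo], by norm_num [runTo],
      by norm_num [runTo], by norm_num [runTo]⟩
  | succ n ih => exact dinv_step ih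

theorem enc_bound {X : ℕ} {x : ℕ × ℕ × ℕ × ℕ × ℕ} (h1 : x.1 ≤ X) (h2 : x.2.1 ≤ X)
    (h3 : x.2.2.1 ≤ X) (h4 : x.2.2.2.1 ≤ X) (h5 : x.2.2.2.2 ≤ X) :
    Encodable.encode x ≤ (X + (X + (X + (X + X + 1) ^ 2 + 1) ^ 2 + 1) ^ 2 + 1) ^ 2 := by
  obtain ⟨a, b, c, d, e⟩ := x
  simp only at h1 h2 h3 h4 h5
  simp only [Encodable.encode_prod_val, Encodable.encode_nat]
  have e1 : Nat.pair d e ≤ (X + X + 1) ^ 2 :=
    (pair_le_sq d e).trans (Nat.pow_le_pow_left (by omega) 2)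
  have e2 : Nat.pair c (Nat.pair d e) ≤ (X + (X + X + 1) ^ 2 + 1) ^ 2 :=
    (pair_le_sq _ _).trans (Nat.pow_le_pow_left (by omega) 2)
  have e3 : Nat.pair b (Nat.pair c (Nat.pair d e)) ≤
      (X + (X + (X + X + 1) ^ 2 + 1) ^ 2 + 1) ^ 2 :=
    (pair_le_sq _ _).trans (Nat.pow_le_pow_left (by omega) 2)
  exact (pair_le_sq _ _).trans (Nat.pow_le_pow_left (by omega) 2)

theorem lsdesc : LSDescStatement := by
  intro α _ M J t hM hJ ht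
  have q1 : LSf fun p : α × ℕ × (ℕ × ℕ × ℕ × ℕ × ℕ) => p.1 := LSf.fst LSf.id
  have q2 : LSf fun p : α × ℕ × (ℕ × ℕ × ℕ × ℕ × ℕ) => p.2.1 := LSf.fst (LSf.snd LSf.id)
  have q3 : LSf fun p : α × ℕ × (ℕ × ℕ × ℕ × ℕ × ℕ) => p.2.2 := LSf.snd (LSf.snd LSf.id)
  have hX : LSf fun a => 2 * J a + t a + 5 :=
    (((LSf.const 2).mul hJ).add ht).add (LSf.const 5)
  have hX1 : LSf fun a => (2 * J a + t a + 5 + (2 * J a + t a + 5) + 1) ^ 2 :=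
    (hX.add hX).succ.pow 2
  have hX2 := (hX.add hX1).succ.pow 2
  have hX3 := (hX.add hX2).succ.pow 2
  have hX4 := (hX.add hX3).succ.pow 2
  unfold desc
  refine LSf.runTo (f := fun a => ((0, 0, 0, J a, 0) : ℕ × ℕ × ℕ × ℕ × ℕ))
    (g := fun a => descStep (M a) (J a) (t a)) ?_ ?_ hJ hX4 ?_
  · exact (LSf.const 0).pair ((LSf.const 0).pair ((LSf.const 0).pair (hJ.pair (LSf.const 0))))
  · -- the step
    have hexp : LSf fun p : α × ℕ × (ℕ × ℕ × ℕ × ℕ × ℕ) => J p.1 - 1 - p.2.1 :=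
      ((hJ.comp q1).pred).sub q2
    have hd : LSf fun p : α × ℕ × (ℕ × ℕ × ℕ × ℕ × ℕ) =>
        t p.1 / M p.1 ^ (J p.1 - 1 - p.2.1) % M p.1 :=
      (LSf.divPow (hM.comp q1) (ht.comp q1) hexp).mod (hM.comp q1)
    have he : LSf fun p : α × ℕ × (ℕ × ℕ × ℕ × ℕ × ℕ) =>
        t p.1 % M p.1 ^ (J p.1 - 1 - p.2.1) := LSf.modPow (hM.comp q1) (ht.comp q1) hexp
    have hd9 : LSf fun p : α × ℕ × (ℕ × ℕ × ℕ × ℕ × ℕ) =>
        t p.1 / M p.1 ^ (J p.1 - 1 - p.2.1) % M p.1 % 9 := hd.mod (LSf.const 9)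
    have ha : LSf fun p : α × ℕ × (ℕ × ℕ × ℕ × ℕ × ℕ) =>
        t p.1 / M p.1 ^ (J p.1 - 1 - p.2.1) % M p.1 / 9 + 1 := (hd.div (LSf.const 9)).succ
    have hz : LSp fun p : α × ℕ × (ℕ × ℕ × ℕ × ℕ × ℕ) =>
        t p.1 % M p.1 ^ (J p.1 - 1 - p.2.1) = 0 := LSp.eq he (LSf.const 0)
    have hop : ∀ tag : ℕ, LSf fun p : α × ℕ × (ℕ × ℕ × ℕ × ℕ × ℕ) =>
        if t p.1 % M p.1 ^ (J p.1 - 1 - p.2.1) = 0 then
          (tag, p.2.2.2.1, p.2.2.2.2.1, p.2.2.2.2.2.1,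
            t p.1 / M p.1 ^ (J p.1 - 1 - p.2.1) % M p.1 / 9 + 1)
        else ((1, 0, 0, 0, 0) : ℕ × ℕ × ℕ × ℕ × ℕ) := by
      intro tag
      refine LSf.ite (P := fun p : α × ℕ × (ℕ × ℕ × ℕ × ℕ × ℕ) =>
        t p.1 % M p.1 ^ (J p.1 - 1 - p.2.1) = 0) hz ?_ (LSf.const _)
      exact (LSf.const tag).pair (q3.snd.fst.pair (q3.snd.snd.fst.pair
        (q3.snd.snd.snd.fst.pair ha)))
    have hcall : ∀ u v s : ℕ, LSf fun p : α × ℕ × (ℕ × ℕ × ℕ × ℕ × ℕ) =>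
        ((0, regOf p.2.2.2.1 (t p.1 / M p.1 ^ (J p.1 - 1 - p.2.1) % M p.1 % 9 - u), s,
          p.2.2.2.2.2.1 + t p.1 / M p.1 ^ (J p.1 - 1 - p.2.1) % M p.1 % 9 - v, 0) :
          ℕ × ℕ × ℕ × ℕ × ℕ) := by
      intro u v s
      have hreg : LSf fun p : α × ℕ × (ℕ × ℕ × ℕ × ℕ × ℕ) =>
          regOf p.2.2.2.1 (t p.1 / M p.1 ^ (J p.1 - 1 - p.2.1) % M p.1 % 9 - u) := by
        unfold regOf
        exact ((q3.snd.fst.succ).add (hd9.sub (LSf.const u))).mod (LSf.const 4)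
      exact (LSf.const 0).pair (hreg.pair ((LSf.const s).pair
        (((q3.snd.snd.snd.fst.add hd9).sub (LSf.const v)).pair (LSf.const 0))))
    unfold descStep
    refine LSf.ite (P := fun p : α × ℕ × (ℕ × ℕ × ℕ × ℕ × ℕ) => p.2.2.1 ≠ 0)
      (LSp.ne q3.fst (LSf.const 0)) q3 ?_
    refine LSf.ite (P := fun p : α × ℕ × (ℕ × ℕ × ℕ × ℕ × ℕ) =>
      t p.1 / M p.1 ^ (J p.1 - 1 - p.2.1) % M p.1 % 9 = 0) (LSp.eq hd9 (LSf.const 0)) (hop 2) ?_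
    refine LSf.ite (P := fun p : α × ℕ × (ℕ × ℕ × ℕ × ℕ × ℕ) =>
      t p.1 / M p.1 ^ (J p.1 - 1 - p.2.1) % M p.1 % 9 ≤ 3) (LSp.le hd9 (LSf.const 3))
      (hcall 1 2 0) ?_
    refine LSf.ite (P := fun p : α × ℕ × (ℕ × ℕ × ℕ × ℕ × ℕ) =>
      t p.1 / M p.1 ^ (J p.1 - 1 - p.2.1) % M p.1 % 9 = 4) (LSp.eq hd9 (LSf.const 4)) (hop 3) ?_
    exact LSf.ite (P := fun p : α × ℕ × (ℕ × ℕ × ℕ × ℕ × ℕ) =>
      t p.1 / M p.1 ^ (J p.1 - 1 - p.2.1) % M p.1 % 9 ≤ 7) (LSp.le hd9 (LSf.const 7))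
      (hcall 5 6 1) (hop 4)
  · intro a n hn
    obtain ⟨h1, h2, h3, h4, h5⟩ := dinv_run (M a) (J a) (t a) n
    exact enc_bound (by omega) (by omega) (by omega) (by omega) (by omega)

end Pool.Agent.Lib.MP_2eed13_lc.LCA.H62
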