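import Pool.Agent.Lib.MP_2eed13_lc.LCA.Api

/-!
# LSOP: the operations on numbers are linear-space functions
-/

set_option autoImplicit false

namespace Pool.Agent.Lib.MP_2eed13_lc.LCA.H62

open Finset

variable {α : Type} [Denumerable α]

theorem ls_mk {C p N : α → ℕ} {f : α → ℕ → ℕ} (hC : LSf C) (hp : LSf p) (hN : LSf N)
    (hf : LSf fun x : α × ℕ => f x.1 x.2) : LSf fun x => mk (C x) (p x) (N x) (f x) := by
  unfold mk
  refine LSf.sum hN ?_
  exact hf.mul (LSf.powc (hp.comp (LSf.fst LSf.id)) (LSf.snd LSf.id) (hC.comp (LSf.fst LSf.id)))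

theorem ls_scaleN {C p b r a R : α → ℕ} (hC : LSf C) (hp : LSf p) (hb : LSf b) (hr : LSf r)
    (ha : LSf a) (hR : LSf R) : LSf fun x => scaleN (C x) (p x) (b x) (r x) (a x) (R x) := by
  unfold scaleN
  refine ls_mk hC hp ((LSf.const 4).mul hb) ?_
  have p1 : LSf fun x : α × ℕ => x.1 := LSf.fst LSf.id
  have p2 : LSf fun x : α × ℕ => x.2 := LSf.snd LSf.id
  have hd : LSf fun x : α × ℕ => dig (p x.1) (R x.1) x.2 := LSf.dig (hp.comp p1) (hR.comp p1) p2
  exact LSf.ite (P := fun x : α × ℕ => x.2 / b x.1 = r x.1)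
    (LSp.eq (p2.div (hb.comp p1)) (hr.comp p1)) hd (((ha.comp p1).mul hd).mod (hp.comp p1))

theorem ls_addN {C p b r s R : α → ℕ} {c : α → ℕ → ℕ} (hC : LSf C) (hp : LSf p) (hb : LSf b)
    (hr : LSf r) (hs : LSf s) (hR : LSf R) (hc : LSf fun x : α × ℕ => c x.1 x.2) :
    LSf fun x => addN (C x) (p x) (b x) (r x) (s x) (c x) (R x) := by
  unfold addN
  refine ls_mk hC hp ((LSf.const 4).mul hb) ?_
  have p1 : LSf fun x : α × ℕ => x.1 := LSf.fst LSf.id
  have p2 : LSf fun x : α × ℕ => x.2 := LSf.snd LSf.id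
  have hd : LSf fun x : α × ℕ => dig (p x.1) (R x.1) x.2 := LSf.dig (hp.comp p1) (hR.comp p1) p2
  have hc' : LSf fun x : α × ℕ => c x.1 (x.2 % b x.1) := hc.comp (p1.pair (p2.mod (hb.comp p1)))
  refine LSf.ite (P := fun x : α × ℕ => x.2 / b x.1 = r x.1)
    (LSp.eq (p2.div (hb.comp p1)) (hr.comp p1)) ?_ hd
  exact LSf.ite (P := fun x : α × ℕ => s x.1 = 0) (LSp.eq (hs.comp p1) (LSf.const 0))
    ((hd.add hc').mod (hp.comp p1))
    ((hd.add ((hp.comp p1).sub (hc'.mod (hp.comp p1)))).mod (hp.comp p1))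

theorem prodMod_le {p : ℕ} (hp : 1 ≤ p) (f : ℕ → ℕ) (n : ℕ) : prodMod p f n ≤ p := by
  cases n with
  | zero => exact hp
  | succ n => exact (Nat.mod_lt _ hp).le

theorem powMod_le {p : ℕ} (hp : 1 ≤ p) (a n : ℕ) : powMod p a n ≤ p := by
  cases n with
  | zero => exact hp
  | succ n => exact (Nat.mod_lt _ hp).le

theorem ls_prodMod {p N : α → ℕ} {f : α → ℕ → ℕ} (hp : LSf p) (hN : LSf N)
    (hf : LSf fun x : α × ℕ => f x.1 x.2) (h1 : ∀ x, 1 ≤ p x) :
    LSf fun x => prodMod (p x) (f x) (N x) := by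
  have e : ∀ a n, Nat.rec (motive := fun _ => ℕ) 1 (fun v x => x * f a v % p a) n =
      prodMod (p a) (f a) n := by
    intro a n
    induction n with
    | zero => rfl
    | succ n ih => simp only [ih, prodMod]
  have q1 : LSf fun x : α × ℕ × ℕ => x.1 := LSf.fst LSf.id
  have q2 : LSf fun x : α × ℕ × ℕ => x.2.1 := LSf.fst (LSf.snd LSf.id)
  have q3 : LSf fun x : α × ℕ × ℕ => x.2.2 := LSf.snd (LSf.snd LSf.id)
  refine (LSf.rec (f := fun _ : α => (1 : ℕ)) (g := fun a v x => x * f a v % p a) (LSf.const 1)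
    ((q3.mul (hf.comp (q1.pair q2))).mod (hp.comp q1)) hN hp ?_).of_eq fun a => e a _
  intro a n _
  rw [e]
  exact prodMod_le (h1 a) _ _

theorem ls_powMod {p a N : α → ℕ} (hp : LSf p) (ha : LSf a) (hN : LSf N) (h1 : ∀ x, 1 ≤ p x) :
    LSf fun x => powMod (p x) (a x) (N x) := by
  have e : ∀ y n, Nat.rec (motive := fun _ => ℕ) 1 (fun _ x => x * a y % p y) n =
      powMod (p y) (a y) n := by
    intro a n
    induction n with
    | zero => rfl
    | succ n ih => simp only [ih, powMod]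
  have q1 : LSf fun x : α × ℕ × ℕ => x.1 := LSf.fst LSf.id
  have q3 : LSf fun x : α × ℕ × ℕ => x.2.2 := LSf.snd (LSf.snd LSf.id)
  refine (LSf.rec (f := fun _ : α => (1 : ℕ)) (g := fun y _ x => x * a y % p y) (LSf.const 1)
    ((q3.mul (ha.comp q1)).mod (hp.comp q1)) hN hp ?_).of_eq fun a => e a _
  intro a n _
  rw [e]
  exact powMod_le (h1 a) _ _

theorem ls_regOf {r c : α → ℕ} (hr : LSf r) (hc : LSf c) : LSf fun x => regOf (r x) (c x) := by
  unfold regOf
  exact (hr.succ.add hc).mod (LSf.const 4)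

theorem ls_wtN {p b r R u : α → ℕ} (hp : LSf p) (hb : LSf b) (hr : LSf r) (hR : LSf R)
    (hu : LSf u) (h1 : ∀ x, 1 ≤ p x) :
    LSf fun x => wtN (p x) (b x) (r x) (R x) (u x) := by
  unfold wtN
  have p1 : LSf fun x : α × ℕ => x.1 := LSf.fst LSf.id
  have p2 : LSf fun x : α × ℕ => x.2 := LSf.snd LSf.id
  refine ls_prodMod hp ((LSf.const 3).mul hb) ?_ h1
  have hi : LSf fun x : α × ℕ => regOf (r x.1) (x.2 / b x.1) * b x.1 + x.2 % b x.1 :=
    ((ls_regOf (hr.comp p1) (p2.div (hb.comp p1))).mul (hb.comp p1)).add (p2.mod (hb.comp p1))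
  have hd : LSf fun x : α × ℕ => dig (p x.1) (R x.1)
      (regOf (r x.1) (x.2 / b x.1) * b x.1 + x.2 % b x.1) :=
    LSf.dig (hp.comp p1) (hR.comp p1) hi
  exact LSf.ite (P := fun x : α × ℕ => dig 2 (u x.1) x.2 = 1)
    (LSp.eq (LSf.dig (LSf.const 2) (hu.comp p1) p2) (LSf.const 1)) hd
    (((hp.comp p1).succ.sub hd).mod (hp.comp p1))

theorem ls_extN (h : LSBlkStatement) {C q T B p b r R k : α → ℕ} (hC : LSf C) (hq : LSf q)
    (hT : LSf T) (hB : LSf B) (hp : LSf p) (hb : LSf b) (hr : LSf r) (hR : LSf R) (hk : LSf k)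
    (h1 : ∀ x, 1 ≤ p x) :
    LSf fun x => extN (C x) (q x) (T x) (B x) (p x) (b x) (r x) (R x) (k x) := by
  unfold extN
  have p1 : LSf fun x : α × ℕ => x.1 := LSf.fst LSf.id
  have p2 : LSf fun x : α × ℕ => x.2 := LSf.snd LSf.id
  refine (LSf.sum (LSf.powc (LSf.const 2) ((LSf.const 3).mul hb) hC) ?_).mod hp
  have hG := (h (α × ℕ)).1 (fun x => C x.1) (fun x => q x.1) (fun x => T x.1) (fun x => B x.1)
    (fun x => x.2) (hC.comp p1) (hq.comp p1) (hT.comp p1) (hB.comp p1) p2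
  exact (LSf.dig (LSf.const 2) hG (hk.comp p1)).mul
    (ls_wtN (hp.comp p1) (hb.comp p1) (hr.comp p1) (hR.comp p1) p2 fun x => h1 x.1)

end Pool.Agent.Lib.MP_2eed13_lc.LCA.H62

namespace Pool.Agent.Lib.MP_2eed13_lc.LCA.H62

theorem lsop (h : LSBlkStatement) : LSOpStatement := by
  intro α _ C q T s0 B J n p b tag r s i a R hC hq hT hs0 hB hJ hn hp hb htag hr hs hi ha hR h1
  have p1 : LSf fun x : α × ℕ => x.1 := LSf.fst LSf.id
  have p2 : LSf fun x : α × ℕ => x.2 := LSf.snd LSf.id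
  have a0 : LSf fun x => addN (C x) (p x) (b x) (r x) (s x)
      (fun k => dig 2 (cont (C x) (q x) (s0 x) (B x) (J x) (n x) (i x)) k) (R x) := by
    refine ls_addN hC hp hb hr hs hR ?_
    exact LSf.dig (LSf.const 2) (((h α).2 C q s0 B J n i hC hq hs0 hB hJ hn hi).comp p1) p2
  have a2 : LSf fun x => scaleN (C x) (p x) (b x) (r x) (a x) (R x) := ls_scaleN hC hp hb hr ha hR
  have a3 : LSf fun x => addN (C x) (p x) (b x) (r x) (1 - s x)
      (fun k => extN (C x) (q x) (T x) (B x) (p x) (b x) (r x) (R x) k) (R x) := by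
    refine ls_addN hC hp hb hr ((LSf.const 1).sub hs) hR ?_
    exact ls_extN h (hC.comp p1) (hq.comp p1) (hT.comp p1) (hB.comp p1) (hp.comp p1) (hb.comp p1)
      (hr.comp p1) (hR.comp p1) p2 fun x => h1 x.1
  have a4 : LSf fun x => scaleN (C x) (p x) (b x) (r x) (powMod (p x) (a x) (p x - 2)) (R x) :=
    ls_scaleN hC hp hb hr (ls_powMod hp ha (hp.sub (LSf.const 2)) h1) hR
  unfold opN
  refine LSf.ite (P := fun x => tag x = 0) (LSp.eq htag (LSf.const 0)) a0 ?_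
  refine LSf.ite (P := fun x => tag x = 1) (LSp.eq htag (LSf.const 1)) hR ?_
  refine LSf.ite (P := fun x => tag x = 2) (LSp.eq htag (LSf.const 2)) a2 ?_
  exact LSf.ite (P := fun x => tag x = 3) (LSp.eq htag (LSf.const 3)) a3 a4

end Pool.Agent.Lib.MP_2eed13_lc.LCA.H62
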