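import Pool.Agent.Lib.MP_2eed13_lc.LCA.H62.Adapt
import Pool.Agent.Lib.MP_2eed13_lc.LCA.H62.LsOp
import Pool.Agent.Lib.MP_2eed13_lc.LCA.H62.LsBlk
import Pool.Agent.Lib.MP_2eed13_lc.LCA.H62.LsDesc
import Pool.Agent.Lib.MP_2eed13_lc.LCA.H79.LSNum
import Pool.Agent.Lib.MP_2eed13_lc.LCA.H12.Pprec
import Pool.Agent.Lib.MP_2eed13_lc.LCA.H39.Top
import Pool.Agent.Lib.MP_2eed13_lc.LCA.H39.Compile
import Pool.Agent.Lib.MP_2eed13_lc.LCA.H3.Sweep
import Pool.Agent.Lib.MP_2eed13_lc.LCA.H36.Goto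
import Pool.Agent.Lib.MP_2eed13_lc.LCA.H38.Digit
import Pool.Agent.Lib.MP_2eed13_lc.LCA.H39.Block
import Pool.Agent.Lib.MP_2eed13_lc.LCA.H35.Row
import Pool.Agent.Lib.MP_2eed13_lc.LCA.H27.Code
import Pool.Agent.Lib.MP_2eed13_lc.LCA.H27.Time
import Pool.Agent.Lib.MP_2eed13_lc.LCA.H81.Eval
import Pool.Agent.Lib.MP_2eed13_lc.LCA.H81.Desc
import Pool.Agent.Lib.MP_2eed13_lc.LCA.H81.Ops
import Pool.Agent.Lib.MP_2eed13_lc.LCA.H16.Cat
import Pool.Agent.Lib.MP_2eed13_lc.LCA.H78.Sum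
import Pool.Agent.Lib.MP_2eed13_lc.LCA.H58.Prime
import Pool.Agent.Lib.MP_2eed13_lc.LCA.H74.Conv

/-!
# Assembly of project LCA
-/

set_option autoImplicit false

namespace Pool.Agent.Lib.MP_2eed13_lc.LCA.H62

open Finset

/-- The machine half, without hypotheses. -/
theorem machine_all : MachineStatement :=
  H12.machine (H39.top (H39.compile H3.sweep H36.goto H38.digit))

/-- The block map statement. -/
theorem block_all : BlockStatement := H39.block H35.row H27.code

/-- The evaluation statement. -/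
theorem eval_all : EvalStatement := H81.eval (H16.cat H78.sum) H27.time H81.desc H81.ops

/-- The diagonal function is of linear space. -/
theorem ls_all : LS diagA := ls_diagA H79.lsnum (lsop lsblk) lsdesc

/-- The diagonal set is accepted by an array. -/
theorem acceptable_all : Acceptable fun n => diagA (2 ^ n) ≠ 0 := machine_all diagA ls_all

/-- The diagonal set is not accepted by any array within time `hgt n * wid n β`. -/
theorem diag_all (Q : Type) (hQ : Finite Q) (s : Q) (δ : Option Q → Q → Option Q → Q)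
    (F : Set Q) : ∃ β, 1 ≤ β ∧ ∀ N, ∃ n, N ≤ n ∧
      ¬ (diagA (2 ^ n) ≠ 0 ↔ ∃ t, t ≤ hgt n * wid n β ∧ aAcc δ s F n t) :=
  diagA_spec block_all eval_all H58.prime Q hQ s δ F

/-- The product of height and width is of the order `(n / log n) ^ 2`. -/
theorem bound_all (β : ℕ) (hβ : 1 ≤ β) (T : ℕ → ℕ)
    (hT : (fun n => (T n : ℝ)) =o[Filter.atTop] fun n : ℕ => ((n : ℝ) / Real.log n) ^ 2) :
    ∃ N, ∀ n, N ≤ n → T n ≤ hgt n * wid n β := by
  obtain ⟨N0, hN0⟩ := sizeA β hβ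
  have hc : (0 : ℝ) < 1 / (900 * β) := by
    have : (0 : ℝ) < β := by exact_mod_cast hβ
    positivity
  obtain ⟨N1, hN1⟩ := Filter.eventually_atTop.1 (hT.bound hc)
  refine ⟨max (max N0 N1) 2, fun n hn => ?_⟩
  have hnN0 : N0 ≤ n := by omega
  have hnN1 : N1 ≤ n := by omega
  have hn2 : 2 ≤ n := by omega
  obtain ⟨_, _, hw2, _, _⟩ := hN0 n hnN0
  have h1 := hN1 n hnN1
  obtain ⟨L, hL⟩ : ∃ L, L = Nat.log 2 n + 1 := ⟨_, rfl⟩
  have hw : wid n β = n / (5 * β * L) := by rw [wid, hL]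
  have hh : hgt n = n / (5 * L) := by rw [hgt, hL]
  have hL1 : 1 ≤ L := by omega
  have hwh : wid n β ≤ hgt n := by
    rw [hw, hh]
    apply Nat.div_le_div_left
    · nlinarith
    · omega
  have e1 : n < 5 * β * L * (wid n β + 1) := by
    have := Nat.lt_mul_div_succ n (show 0 < 5 * β * L from
      Nat.mul_pos (Nat.mul_pos (by norm_num) hβ) hL1)
    rw [hw]
    exact this
  have e2 : n < 5 * L * (hgt n + 1) := by
    have := Nat.lt_mul_div_succ n (show 0 < 5 * L by omega)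
    rw [hh]
    exact this
  have e3 : n ≤ 10 * β * L * wid n β := by
    have : 5 * β * L * (wid n β + 1) ≤ 5 * β * L * (2 * wid n β) :=
      Nat.mul_le_mul_left _ (by omega)
    calc n ≤ 5 * β * L * (wid n β + 1) := e1.le
      _ ≤ 5 * β * L * (2 * wid n β) := this
      _ = _ := by ring
  have e4 : n ≤ 10 * L * hgt n := by
    have : 5 * L * (hgt n + 1) ≤ 5 * L * (2 * hgt n) := Nat.mul_le_mul_left _ (by omega)
    calc n ≤ 5 * L * (hgt n + 1) := e2.le
      _ ≤ 5 * L * (2 * hgt n) := this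
      _ = _ := by ring
  -- real estimates
  have hlog2 : (0.6931471803 : ℝ) < Real.log 2 := Real.log_two_gt_d9
  have hlogn : Real.log 2 ≤ Real.log n := Real.log_le_log (by norm_num) (by exact_mod_cast hn2)
  have hLlog : ((L : ℝ) - 1) * Real.log 2 ≤ Real.log n := by
    have h2 : 2 ^ (Nat.log 2 n) ≤ n := Nat.pow_log_le_self 2 (by omega)
    have h3 : ((2 : ℝ) ^ (Nat.log 2 n)) ≤ n := by exact_mod_cast h2
    have h4 := Real.log_le_log (by positivity) h3
    rw [Real.log_pow] at h4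
    have h5 : ((L : ℝ) - 1) = (Nat.log 2 n : ℝ) := by
      rw [hL]
      push_cast
      ring
    rw [h5]
    exact h4
  have hL3 : (L : ℝ) ≤ 3 * Real.log n := by nlinarith
  have hlpos : 0 < Real.log n := by linarith
  have hLpos : (0 : ℝ) < L := by exact_mod_cast hL1
  have hβpos : (0 : ℝ) < β := by exact_mod_cast hβ
  have r3 : (n : ℝ) ≤ 10 * β * L * wid n β := by exact_mod_cast e3
  have r4 : (n : ℝ) ≤ 10 * L * hgt n := by exact_mod_cast e4
  have hprod : (n : ℝ) ^ 2 ≤ 900 * β * Real.log n ^ 2 * (hgt n * wid n β) := by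
    have hn0 : (0 : ℝ) ≤ n := Nat.cast_nonneg n
    calc (n : ℝ) ^ 2 = n * n := by ring
      _ ≤ (10 * β * L * wid n β) * (10 * L * hgt n) :=
          mul_le_mul r3 r4 hn0 (hn0.trans r3)
      _ = 100 * β * L ^ 2 * (hgt n * wid n β) := by ring
      _ ≤ 100 * β * (3 * Real.log n) ^ 2 * (hgt n * wid n β) := by
          apply mul_le_mul_of_nonneg_right _ (by positivity)
          apply mul_le_mul_of_nonneg_left _ (by positivity)
          exact pow_le_pow_left₀ hLpos.le hL3 2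
      _ = _ := by ring
  have hfin : (T n : ℝ) ≤ hgt n * wid n β := by
    have h6 : ‖((T n : ℕ) : ℝ)‖ = (T n : ℝ) := by
      rw [Real.norm_eq_abs, abs_of_nonneg (Nat.cast_nonneg _)]
    have h7 : ‖((n : ℝ) / Real.log n) ^ 2‖ = ((n : ℝ) / Real.log n) ^ 2 := by
      rw [Real.norm_eq_abs, abs_of_nonneg (by positivity)]
    rw [h6, h7] at h1
    refine h1.trans ?_
    rw [div_pow, one_div_mul_eq_div, div_div, div_le_iff₀ (by positivity)]
    calc (n : ℝ) ^ 2 ≤ _ := hprod
      _ = _ := by ring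
  exact_mod_cast hfin

end Pool.Agent.Lib.MP_2eed13_lc.LCA.H62
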